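import Mathlib
import Pool.Agent.H11R2.MTI4

/-!
# A multivariate trace inequality for positive operators

For every `n ≥ 3` there is `c > 0`, independent of the dimension `d`, with `L ≥ c R` for all
positive `d × d` matrices `A_1, …, A_n`.

Idea of the proof.  Let `P_{jk}` be the optimal test for `A_j` against `A_k`, a projection, with
`P_{kj} = 1 - P_{jk}`, so that `-R/2 = ∑_j ∑_{k ≠ j} Tr A_j P_{kj}`.  For each `m` the spectral
subspaces `H_k ⊆ ran P_{km}` (`k ≠ m`) on which `D_k = ∑_{l ≠ k} P_{lk}` is at most `1/(16 n²)` are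
pairwise nearly orthogonal, so that the projection `E_m` onto their sum satisfies `E_m ≤ C D_m` and
`1 - E_m ≤ C D_k` for all `k ≠ m`.  Measuring `1 - E_1`, `1 - E_2`, … one after the other gives
positive operators `M_j` with `∑ M_j ≤ 1` and `1 - M_j ≤ C' D_j`.  Since
`X = √(∑ A_j²) ≥ A_j` for each `j`, `Tr X ≥ ∑ Tr X M_j ≥ ∑ Tr A_j M_j`, and the claim follows.
-/

set_option autoImplicit false

open scoped ComplexOrder MatrixOrder Matrix

namespace Pool.Agent.Results.MP_ebd556_mp.ConstantExists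

/-- The trace norm `‖X‖₁ = Tr √(X* X)` of a complex `d × d` matrix. -/
noncomputable def traceNorm {d : ℕ} (X : Matrix (Fin d) (Fin d) ℂ) : ℝ :=
  (CFC.sqrt (Xᴴ * X)).trace.re

/-- `L(A_1, …, A_n) = Tr √(∑_j A_j²) - ∑_j Tr A_j`. -/
noncomputable def L {n d : ℕ} (A : Fin n → Matrix (Fin d) (Fin d) ℂ) : ℝ :=
  (CFC.sqrt (∑ j, A j ^ 2)).trace.re - ∑ j, (A j).trace.re

/-- `R(A_1, …, A_n) = ∑_{j < k} (‖A_j - A_k‖₁ - Tr (A_j + A_k))`. -/
noncomputable def R {n d : ℕ} (A : Fin n → Matrix (Fin d) (Fin d) ℂ) : ℝ :=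
  ∑ j, ∑ k ∈ Finset.univ.filter (fun k => j < k), (traceNorm (A j - A k) - (A j + A k).trace.re)

/-- For every `n ≥ 3` there is a constant `c > 0` such that `L(A_1, …, A_n) ≥ c R(A_1, …, A_n)` for
every dimension `d ≥ 1` and all positive semidefinite `d × d` matrices `A_1, …, A_n`. -/
theorem result (n : ℕ) (hn : 3 ≤ n) :
    ∃ c : ℝ, 0 < c ∧ ∀ d : ℕ, 1 ≤ d → ∀ A : Fin n → Matrix (Fin d) (Fin d) ℂ,
      (∀ j, (A j).PosSemidef) → L A ≥ c * R A := by
  have hn0 : (0 : ℝ) < n := by exact_mod_cast (by omega : 0 < n)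
  refine ⟨H11R2.MTI.Cn n / 2, ?_, fun d _ A hA => ?_⟩
  · unfold H11R2.MTI.Cn
    positivity
  · exact H11R2.MTI.main (by omega) A hA

end Pool.Agent.Results.MP_ebd556_mp.ConstantExists
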